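import Mathlib

/-!
# Weighted sums of squared generalized trinomial coefficients

Both questions of the problem are answered in the affirmative, via the closed form
`∑_{j<n} (8cj+4c+b) T_j² (b-2c)^{2(n-1-j)} = n² (T_n - (b+2c) T_{n-1})² / (2c) + n (b+2c) T_n T_{n-1} / b`.
-/

namespace Pool.Agent.Results.MP_bba144_nt.SquaredTrinomialSums

open Finset

/-- `T_m(b,c) = ∑_{0 ≤ j ≤ m/2} C(m,2j) C(2j,j) b^{m-2j} c^j`. -/
def T {R : Type*} [CommRing R] (m : ℕ) (b c : R) : R :=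
  ∑ j ∈ range (m / 2 + 1), (m.choose (2 * j) : R) * ((2 * j).choose j : R) * b ^ (m - 2 * j) * c ^ j

/-- the coefficient -/
def A (m j : ℕ) : ℕ := m.choose (2 * j) * (2 * j).choose j

lemma A_eq_zero {m j : ℕ} (h : m < 2 * j) : A m j = 0 := by
  simp [A, Nat.choose_eq_zero_of_lt h]

lemma A_zero (m : ℕ) : A m 0 = 1 := by simp [A]

lemma T_eq {R : Type*} [CommRing R] (m M : ℕ) (h : m / 2 < M) (b c : R) :
    T m b c = ∑ j ∈ range M, (A m j : R) * b ^ (m - 2 * j) * c ^ j := by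
  have h1 : T m b c = ∑ j ∈ range (m / 2 + 1), (A m j : R) * b ^ (m - 2 * j) * c ^ j := by
    refine sum_congr rfl fun j _ => ?_
    simp only [A]
    push_cast
    ring
  rw [h1]
  refine sum_subset (range_subset_range.2 (by omega)) fun j _ hj => ?_
  rw [A_eq_zero (by simp at hj; omega)]
  simp

/-- `(k+1) C(n,k+1) = (n-k) C(n,k)` over `ℚ`. -/
lemma choose_succ_q (n k : ℕ) :
    ((k : ℚ) + 1) * (n.choose (k + 1) : ℚ) = ((n : ℚ) - k) * (n.choose k : ℚ) := by
  rcases lt_or_ge n k with h | h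
  · rw [Nat.choose_eq_zero_of_lt h, Nat.choose_eq_zero_of_lt (by omega)]; simp
  · have h1 := Nat.choose_succ_right_eq n k
    have h2 : ((n.choose (k + 1) * (k + 1) : ℕ) : ℚ) = ((n.choose k * (n - k) : ℕ) : ℚ) := by
      rw [h1]
    push_cast [Nat.cast_sub h] at h2
    linarith

/-- `(n+1-k) C(n+1,k) = (n+1) C(n,k)`. -/
lemma choose_top_q (n k : ℕ) :
    ((n : ℚ) + 1 - k) * ((n + 1).choose k : ℚ) = ((n : ℚ) + 1) * (n.choose k : ℚ) := by
  rcases lt_or_ge n k with h | h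
  · rw [Nat.choose_eq_zero_of_lt h]
    rcases eq_or_lt_of_le (Nat.succ_le_of_lt h) with h' | h'
    · have : (k : ℚ) = n + 1 := by rw [← h']; push_cast; ring
      rw [this]; ring
    · rw [Nat.choose_eq_zero_of_lt (by omega : n + 1 < k)]; simp
  · have h1 := Nat.choose_mul_succ_eq n k
    have h2 : ((n.choose k * (n + 1) : ℕ) : ℚ) = (((n + 1).choose k * (n + 1 - k) : ℕ) : ℚ) := by
      rw [h1]
    push_cast [Nat.cast_sub (by omega : k ≤ n + 1)] at h2
    linarith

lemma central_q (j : ℕ) :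
    ((j : ℚ) + 1) * ((2 * (j + 1)).choose (j + 1) : ℚ) = 2 * (2 * j + 1) * ((2 * j).choose j : ℚ) := by
  have h := Nat.succ_mul_centralBinom_succ j
  rw [Nat.centralBinom, Nat.centralBinom] at h
  exact_mod_cast h

lemma A_succ (m j : ℕ) :
    ((j : ℚ) + 1) ^ 2 * (A m (j + 1) : ℚ) = ((m : ℚ) - 2 * j) * (m - 2 * j - 1) * (A m j : ℚ) := by
  have h1 := choose_succ_q m (2 * j)
  have h2 := choose_succ_q m (2 * j + 1)
  have h3 := central_q j
  simp only [A]
  rw [show 2 * (j + 1) = 2 * j + 1 + 1 by ring] at *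
  push_cast at *
  have h5 : (2 * (j : ℚ) + 1) ≠ 0 := by positivity
  apply mul_left_cancel₀ h5
  linear_combination ((2 * (j : ℚ) + 1) * ((j : ℚ) + 1) * (m.choose (2 * j + 1 + 1) : ℚ)) * h3 +
    ((2 * (j : ℚ) + 1) * (2 * j + 1) * ((2 * j).choose j : ℚ)) * h2 +
    ((2 * (j : ℚ) + 1) * ((m : ℚ) - 2 * j - 1) * ((2 * j).choose j : ℚ)) * h1

lemma A_top (m j : ℕ) :
    ((m : ℚ) + 1 - 2 * j) * (A (m + 1) j : ℚ) = ((m : ℚ) + 1) * (A m j : ℚ) := by
  have h1 := choose_top_q m (2 * j)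
  simp only [A]
  push_cast at *
  linear_combination ((2 * j).choose j : ℚ) * h1

lemma A_rec (m j : ℕ) :
    (m + 2) * A (m + 2) (j + 1) + (m + 1) * A m (j + 1) =
      (2 * m + 3) * A (m + 1) (j + 1) + 4 * (m + 1) * A m j := by
  have h1 := A_succ m j
  have h2 := A_succ (m + 1) j
  have h3 := A_succ (m + 2) j
  have h4 := A_top m j
  have h5 := A_top (m + 1) j
  have hj : ((j : ℚ) + 1) ^ 2 ≠ 0 := by positivity
  have : (((m + 2) * A (m + 2) (j + 1) + (m + 1) * A m (j + 1) : ℕ) : ℚ) =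
      (((2 * m + 3) * A (m + 1) (j + 1) + 4 * (m + 1) * A m j : ℕ) : ℚ) := by
    push_cast at *
    rw [show m + 1 + 1 = m + 2 by ring] at h5
    apply mul_left_cancel₀ hj
    linear_combination ((m : ℚ) + 2) * (h3 + ((m : ℚ) + 1 - 2 * j) * h5 + ((m : ℚ) + 2) * h4) +
      ((m : ℚ) + 1) * h1 - (2 * (m : ℚ) + 3) * (h2 + ((m : ℚ) - 2 * j) * h4)
  exact_mod_cast this

/-- The three-term recurrence. -/
lemma T_rec {R : Type*} [CommRing R] (m : ℕ) (b c : R) :
    ((m : R) + 2) * T (m + 2) b c + ((m : R) + 1) * (b ^ 2 - 4 * c) * T m b c =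
      (2 * (m : R) + 3) * b * T (m + 1) b c := by
  have e0 := T_eq (m + 2) (m + 2 + 1) (by omega) b c
  have e1 := T_eq (m + 1) (m + 2 + 1) (by omega) b c
  have e2 := T_eq m (m + 2 + 1) (by omega) b c
  have e3 := T_eq m (m + 2) (by omega) b c
  have f1 : b * T (m + 1) b c = ∑ j ∈ range (m + 2 + 1), (A (m + 1) j : R) *
      b ^ (m + 2 - 2 * j) * c ^ j := by
    rw [e1, mul_sum]
    refine sum_congr rfl fun j _ => ?_
    rcases Nat.lt_or_ge (m + 1) (2 * j) with h | h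
    · rw [A_eq_zero h]; simp
    · rw [show m + 2 - 2 * j = m + 1 - 2 * j + 1 by omega, pow_succ]; ring
  have f2 : b ^ 2 * T m b c = ∑ j ∈ range (m + 2 + 1), (A m j : R) *
      b ^ (m + 2 - 2 * j) * c ^ j := by
    rw [e2, mul_sum]
    refine sum_congr rfl fun j _ => ?_
    rcases Nat.lt_or_ge m (2 * j) with h | h
    · rw [A_eq_zero h]; simp
    · rw [show m + 2 - 2 * j = m - 2 * j + 2 by omega, pow_add]; ring
  have f3 : c * T m b c = ∑ j ∈ range (m + 2), (A m j : R) *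
      b ^ (m + 2 - 2 * (j + 1)) * c ^ (j + 1) := by
    rw [e3, mul_sum]
    refine sum_congr rfl fun j _ => ?_
    rw [show m + 2 - 2 * (j + 1) = m - 2 * j by omega, pow_succ]; ring
  have key : ((m : R) + 2) * T (m + 2) b c + ((m : R) + 1) * (b ^ 2 * T m b c) =
      (2 * (m : R) + 3) * (b * T (m + 1) b c) + 4 * ((m : R) + 1) * (c * T m b c) := by
    rw [e0, f1, f2, f3, sum_range_succ' _ (m + 2), sum_range_succ' _ (m + 2),
      sum_range_succ' _ (m + 2)]
    simp only [A_zero]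
    rw [mul_add, mul_add, mul_add, mul_sum, mul_sum, mul_sum, mul_sum]
    have : ∀ j ∈ range (m + 2), ((m : R) + 2) * ((A (m + 2) (j + 1) : R) *
        b ^ (m + 2 - 2 * (j + 1)) * c ^ (j + 1)) =
        (2 * (m : R) + 3) * ((A (m + 1) (j + 1) : R) * b ^ (m + 2 - 2 * (j + 1)) * c ^ (j + 1)) +
        4 * ((m : R) + 1) * ((A m j : R) * b ^ (m + 2 - 2 * (j + 1)) * c ^ (j + 1)) -
        ((m : R) + 1) * ((A m (j + 1) : R) * b ^ (m + 2 - 2 * (j + 1)) * c ^ (j + 1)) := by
      intro j _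
      have h := congrArg (Nat.cast : ℕ → R) (A_rec m j)
      push_cast at h
      linear_combination (b ^ (m + 2 - 2 * (j + 1)) * c ^ (j + 1)) * h
    rw [sum_congr rfl this, sum_sub_distrib, sum_add_distrib]
    push_cast
    ring
  linear_combination key

/-- The sum in Q1. -/
def S {R : Type*} [CommRing R] (n : ℕ) (b c : R) : R :=
  ∑ j ∈ range n, (8 * c * j + 4 * c + b) * T j b (c ^ 2) ^ 2 * (b - 2 * c) ^ (2 * (n - 1 - j))

lemma S_succ {R : Type*} [CommRing R] (n : ℕ) (b c : R) :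
    S (n + 2) b c = (b - 2 * c) ^ 2 * S (n + 1) b c +
      (8 * c * (n + 1) + 4 * c + b) * T (n + 1) b (c ^ 2) ^ 2 := by
  unfold S
  rw [sum_range_succ _ (n + 1), mul_sum]
  congr 1
  · refine sum_congr rfl fun j hj => ?_
    have : j < n + 1 := mem_range.1 hj
    rw [show 2 * (n + 2 - 1 - j) = 2 * (n + 1 - 1 - j) + 2 by omega, pow_add]
    ring
  · rw [show 2 * (n + 2 - 1 - (n + 1)) = 0 by omega]
    push_cast
    ring

lemma T_zero {R : Type*} [CommRing R] (b c : R) : T 0 b c = 1 := by simp [T]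

lemma T_one {R : Type*} [CommRing R] (b c : R) : T 1 b c = b := by simp [T]

/-- The closed form, cleared of denominators. -/
lemma closed {R : Type*} [CommRing R] (n : ℕ) (b c : R) :
    2 * b * c * S (n + 1) b c =
      ((n : R) + 1) ^ 2 * b * (T (n + 1) b (c ^ 2) - (b + 2 * c) * T n b (c ^ 2)) ^ 2 +
        2 * ((n : R) + 1) * c * (b + 2 * c) * T (n + 1) b (c ^ 2) * T n b (c ^ 2) := by
  induction n with
  | zero =>
    have : S 1 b c = 4 * c + b := by simp [S, T_zero]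
    rw [this, T_zero, T_one]
    push_cast
    ring
  | succ n ih =>
    have h := T_rec n b (c ^ 2)
    rw [S_succ, show n + 1 + 1 = n + 2 by ring]
    generalize T (n + 2) b (c ^ 2) = u at *
    generalize T (n + 1) b (c ^ 2) = v at *
    generalize T n b (c ^ 2) = w at *
    generalize S (n + 1) b c = s at *
    push_cast
    have e : ((n : R) + 2) * u = (2 * (n : R) + 3) * b * v - ((n : R) + 1) * (b ^ 2 - 4 * c ^ 2) * w := by
      linear_combination h
    have e2 : ((n : R) + 1 + 1) ^ 2 * b * (u - (b + 2 * c) * v) ^ 2 +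
        2 * ((n : R) + 1 + 1) * c * (b + 2 * c) * u * v =
        b * (((n : R) + 2) * u - ((n : R) + 2) * (b + 2 * c) * v) ^ 2 +
        2 * c * (b + 2 * c) * (((n : R) + 2) * u) * v := by ring
    rw [e2, e]
    linear_combination (b - 2 * c) ^ 2 * ih

lemma two_mul_dvd {R : Type*} [CommRing R] (n : ℕ) (b c : R) :
    2 * c ∣ T n b (c ^ 2) - b ^ n := by
  unfold T
  rw [sum_range_succ']
  have h0 : (n.choose (2 * 0) : R) * ((2 * 0).choose 0 : R) * b ^ (n - 2 * 0) * (c ^ 2) ^ 0 = b ^ n := by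
    simp
  rw [h0, add_sub_cancel_right]
  refine dvd_sum fun j _ => ?_
  obtain ⟨k, hk⟩ := Nat.two_dvd_centralBinom_succ j
  rw [Nat.centralBinom] at hk
  refine ⟨(n.choose (2 * (j + 1)) : R) * k * b ^ (n - 2 * (j + 1)) * c * (c ^ 2) ^ j, ?_⟩
  rw [hk]
  push_cast
  ring

lemma dvd_T_odd {R : Type*} [CommRing R] (n : ℕ) (hn : n % 2 = 1) (b c : R) : b ∣ T n b c := by
  unfold T
  refine dvd_sum fun j hj => ?_
  have hj' : j < n / 2 + 1 := mem_range.1 hj
  obtain ⟨k, hk⟩ : ∃ k, n - 2 * j = k + 1 := ⟨n - 2 * j - 1, by omega⟩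
  rw [hk, pow_succ]
  exact ⟨(n.choose (2 * j) : R) * ((2 * j).choose j : R) * b ^ k * c ^ j, by ring⟩

lemma dvd_TT {R : Type*} [CommRing R] (n : ℕ) (b c : R) : b ∣ T (n + 1) b c * T n b c := by
  rcases Nat.even_or_odd n with h | h
  · exact Dvd.dvd.mul_right (dvd_T_odd (n + 1) (by rcases h with ⟨k, rfl⟩; omega) b c) _
  · exact Dvd.dvd.mul_left (dvd_T_odd n (Nat.odd_iff.1 h) b c) _

lemma dvd_g {R : Type*} [CommRing R] (n : ℕ) (b c : R) :
    2 * c ∣ T (n + 1) b (c ^ 2) - (b + 2 * c) * T n b (c ^ 2) := by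
  obtain ⟨k, hk⟩ := two_mul_dvd (n + 1) b c
  obtain ⟨l, hl⟩ := two_mul_dvd n b c
  refine ⟨k - (b + 2 * c) * l - b ^ n, ?_⟩
  linear_combination hk - (b + 2 * c) * hl

lemma map_T {R S : Type*} [CommRing R] [CommRing S] (φ : R →+* S) (m : ℕ) (b c : R) :
    φ (T m b c) = T m (φ b) (φ c) := by
  simp [T]

lemma map_S {R R' : Type*} [CommRing R] [CommRing R'] (φ : R →+* R') (n : ℕ) (b c : R) :
    φ (S n b c) = S n (φ b) (φ c) := by
  simp [S, map_T, map_ofNat]

/-- The closed form over `ℤ`. -/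
lemma closed_int (n : ℕ) (b c : ℤ) : ∃ g h : ℤ,
    T (n + 1) b (c ^ 2) * T n b (c ^ 2) = b * h ∧
    S (n + 1) b c = ((n : ℤ) + 1) * (2 * c * ((n : ℤ) + 1) * g ^ 2 + (b + 2 * c) * h) := by
  let R := MvPolynomial (Fin 2) ℤ
  let B : R := MvPolynomial.X 0
  let C : R := MvPolynomial.X 1
  obtain ⟨g, hg⟩ := dvd_g n B C
  obtain ⟨h, hh⟩ := dvd_TT n B (C ^ 2)
  have hcl := closed n B C
  have hne : (2 : R) * B * C ≠ 0 := by
    refine mul_ne_zero (mul_ne_zero ?_ (MvPolynomial.X_ne_zero 0)) (MvPolynomial.X_ne_zero 1)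
    exact two_ne_zero
  have hS : S (n + 1) B C = ((n : R) + 1) * (2 * C * ((n : R) + 1) * g ^ 2 + (B + 2 * C) * h) := by
    apply mul_left_cancel₀ hne
    rw [hcl, hg]
    linear_combination (2 * ((n : R) + 1) * C * (B + 2 * C)) * hh
  let φ : R →+* ℤ := MvPolynomial.eval ![b, c]
  have hB : φ B = b := by
    change (MvPolynomial.eval ![b, c]) (MvPolynomial.X (0 : Fin 2) : MvPolynomial (Fin 2) ℤ) = b
    rw [MvPolynomial.eval_X]; rfl
  have hC : φ C = c := by
    change (MvPolynomial.eval ![b, c]) (MvPolynomial.X (1 : Fin 2) : MvPolynomial (Fin 2) ℤ) = c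
    rw [MvPolynomial.eval_X]; rfl
  refine ⟨φ g, φ h, ?_, ?_⟩
  · have := congrArg φ hh
    rw [map_mul, map_T, map_T, map_mul, map_pow, hB, hC] at this
    exact this
  · have := congrArg φ hS
    rw [map_S, hB, hC] at this
    rw [this]
    simp only [map_mul, map_add, map_pow, map_natCast, map_one, map_ofNat, hB, hC]

/-! ### Congruences modulo `p` -/

lemma choose_pred (p : ℕ) [Fact p.Prime] (k : ℕ) (hk : k ≤ p - 1) :
    ((p - 1).choose k : ZMod p) = (-1) ^ k := by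
  have hp : p.Prime := Fact.out
  induction k with
  | zero => simp
  | succ k ih =>
    have h1 := Nat.choose_succ_right_eq (p - 1) k
    have h2 : (((p - 1).choose (k + 1) * (k + 1) : ℕ) : ZMod p) =
        (((p - 1).choose k * (p - 1 - k) : ℕ) : ZMod p) := by rw [h1]
    have h3 : ((p - 1 - k : ℕ) : ZMod p) = -((k : ZMod p) + 1) := by
      have : ((p - 1 - k : ℕ) : ZMod p) + ((k : ZMod p) + 1) = ((p - 1 - k + (k + 1) : ℕ) : ZMod p) := by
        push_cast; ring
      rw [show p - 1 - k + (k + 1) = p by omega, ZMod.natCast_self] at this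
      linear_combination this
    have h4 : ((k : ZMod p) + 1) ≠ 0 := by
      have : ((k + 1 : ℕ) : ZMod p) ≠ 0 := by
        rw [Ne, ZMod.natCast_eq_zero_iff]
        intro hd
        have := Nat.le_of_dvd (by omega) hd
        omega
      simpa using this
    push_cast at h2
    rw [h3, ih (by omega)] at h2
    apply mul_right_cancel₀ h4
    rw [h2, pow_succ]
    ring

lemma central_mod (p : ℕ) [Fact p.Prime] (hp2 : p ≠ 2) (j : ℕ) (hj : j ≤ (p - 1) / 2) :
    ((2 * j).choose j : ZMod p) = (-4) ^ j * (((p - 1) / 2).choose j : ZMod p) := by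
  have hp : p.Prime := Fact.out
  have hodd : p % 2 = 1 := hp.eq_two_or_odd.resolve_left hp2
  induction j with
  | zero => simp
  | succ j ih =>
    have h1 := Nat.succ_mul_centralBinom_succ j
    rw [Nat.centralBinom, Nat.centralBinom] at h1
    have h2 : (((j + 1) * (2 * (j + 1)).choose (j + 1) : ℕ) : ZMod p) =
        ((2 * (2 * j + 1) * (2 * j).choose j : ℕ) : ZMod p) := by rw [h1]
    have h3 := Nat.choose_succ_right_eq ((p - 1) / 2) j
    have h4 : ((((p - 1) / 2).choose (j + 1) * (j + 1) : ℕ) : ZMod p) =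
        ((((p - 1) / 2).choose j * ((p - 1) / 2 - j) : ℕ) : ZMod p) := by rw [h3]
    have h5 : 2 * (((p - 1) / 2 - j : ℕ) : ZMod p) = -(2 * (j : ZMod p) + 1) := by
      have : 2 * (((p - 1) / 2 - j : ℕ) : ZMod p) + (2 * (j : ZMod p) + 1) =
          ((2 * ((p - 1) / 2 - j) + (2 * j + 1) : ℕ) : ZMod p) := by push_cast; ring
      rw [show 2 * ((p - 1) / 2 - j) + (2 * j + 1) = p by omega, ZMod.natCast_self] at this
      linear_combination this
    have h6 : ((j : ZMod p) + 1) ≠ 0 := by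
      have : ((j + 1 : ℕ) : ZMod p) ≠ 0 := by
        rw [Ne, ZMod.natCast_eq_zero_iff]
        intro hd
        have := Nat.le_of_dvd (by omega) hd
        omega
      simpa using this
    push_cast at h2 h4
    have ih' := ih (by omega)
    apply mul_left_cancel₀ h6
    rw [pow_succ]
    rw [h2, ih']
    linear_combination (2 * (-4) ^ j * (((p - 1) / 2).choose j : ZMod p)) * h5 +
      (4 * (-4) ^ j) * h4

lemma T_pred_mod (p : ℕ) [Fact p.Prime] (hp2 : p ≠ 2) (b c : ZMod p) :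
    T (p - 1) b c = (b ^ 2 - 4 * c) ^ ((p - 1) / 2) := by
  have hp : p.Prime := Fact.out
  have hodd : p % 2 = 1 := hp.eq_two_or_odd.resolve_left hp2
  unfold T
  rw [sub_eq_neg_add, add_pow]
  refine sum_congr rfl fun j hj => ?_
  have hj' : j < (p - 1) / 2 + 1 := mem_range.1 hj
  rw [choose_pred p (2 * j) (by omega), central_mod p hp2 j (by omega), pow_mul, neg_one_sq, one_pow,
    ← pow_mul, show 2 * ((p - 1) / 2 - j) = p - 1 - 2 * j by omega]
  rw [show -(4 * c) = (-4) * c by ring, mul_pow]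
  ring

lemma T_self_mod (p : ℕ) [Fact p.Prime] (hp2 : p ≠ 2) (b c : ZMod p) :
    T p b c = b ^ p := by
  have hp : p.Prime := Fact.out
  have hodd : p % 2 = 1 := hp.eq_two_or_odd.resolve_left hp2
  unfold T
  rw [sum_range_succ']
  have h0 : (p.choose (2 * 0) : ZMod p) * ((2 * 0).choose 0 : ZMod p) * b ^ (p - 2 * 0) * c ^ 0
      = b ^ p := by simp
  rw [h0]
  have : ∑ k ∈ range (p / 2), (p.choose (2 * (k + 1)) : ZMod p) * ((2 * (k + 1)).choose (k + 1) : ZMod p)
      * b ^ (p - 2 * (k + 1)) * c ^ (k + 1) = 0 := by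
    refine sum_eq_zero fun k hk => ?_
    have hk' : k < p / 2 := mem_range.1 hk
    have : (p.choose (2 * (k + 1)) : ZMod p) = 0 := by
      rw [ZMod.natCast_eq_zero_iff]
      exact hp.dvd_choose_self (by omega) (by omega)
    rw [this]; ring
  rw [this, zero_add]

/-- **Main theorem**: Q1 and Q2. In Q2 a congruence modulo `p²` between `p`-integral rationals is
expressed by `x - y = p² (u / v)` with integers `u, v`, `p ∤ v`. -/
theorem result :
    (∀ (b c : ℤ) (n : ℕ), 1 ≤ n →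
      (n : ℤ) ∣ ∑ j ∈ range n,
        (8 * c * j + 4 * c + b) * T j b (c ^ 2) ^ 2 * (b - 2 * c) ^ (2 * (n - 1 - j))) ∧
    (∀ (b c : ℤ) (p : ℕ) [Fact p.Prime], p ≠ 2 → ¬ (p : ℤ) ∣ b * (b - 2 * c) →
      ∃ u v : ℤ, ¬ (p : ℤ) ∣ v ∧
        (∑ j ∈ range p, (8 * (c : ℚ) * j + 4 * c + b) * ((T j b (c ^ 2) : ℤ) : ℚ) ^ 2 /
            ((b : ℚ) - 2 * c) ^ (2 * j)) -
          (p : ℚ) * (b + 2 * c) * (legendreSym p (b ^ 2 - 4 * c ^ 2) : ℤ) =
        (p : ℚ) ^ 2 * ((u : ℚ) / (v : ℚ))) := by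
  constructor
  · intro b c n hn
    obtain ⟨N, rfl⟩ : ∃ N, n = N + 1 := ⟨n - 1, by omega⟩
    obtain ⟨g, h, _, hS⟩ := closed_int N b c
    change ((N + 1 : ℕ) : ℤ) ∣ S (N + 1) b c
    rw [hS]
    push_cast
    exact dvd_mul_right _ _
  · intro b c p _ hp2 hbc
    have hp : p.Prime := Fact.out
    have hpi : Prime (p : ℤ) := Nat.prime_iff_prime_int.1 hp
    have hb : ¬ (p : ℤ) ∣ b := fun h => hbc (Dvd.dvd.mul_right h _)
    have hw : ¬ (p : ℤ) ∣ b - 2 * c := fun h => hbc (Dvd.dvd.mul_left h _)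
    set w : ℤ := b - 2 * c with hwdef
    have hw0 : w ≠ 0 := fun h => hw (h ▸ dvd_zero _)
    obtain ⟨N, hN⟩ : ∃ N, p = N + 1 := ⟨p - 1, by have := hp.pos; omega⟩
    obtain ⟨g, h, hh, hS⟩ := closed_int N b c
    have hN1 : N = p - 1 := by omega
    rw [← hN] at hh hS
    rw [show ((N : ℤ) + 1) = (p : ℤ) by rw [hN]; push_cast; ring] at hS
    rw [hN1] at hh
    -- `h ≡ legendre * w^{2(p-1)}`
    have key : (p : ℤ) ∣ h - legendreSym p (b ^ 2 - 4 * c ^ 2) * w ^ (2 * (p - 1)) := by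
      rw [← ZMod.intCast_zmod_eq_zero_iff_dvd]
      have hb' : (b : ZMod p) ≠ 0 := by
        rwa [Ne, ZMod.intCast_zmod_eq_zero_iff_dvd]
      have hw' : (w : ZMod p) ≠ 0 := by
        rwa [Ne, ZMod.intCast_zmod_eq_zero_iff_dvd]
      have h1 := congrArg (Int.castRingHom (ZMod p)) hh
      rw [map_mul, map_T, map_T, map_mul, map_pow] at h1
      simp only [eq_intCast] at h1
      rw [T_self_mod p hp2, T_pred_mod p hp2, ZMod.pow_card] at h1
      have h2 := mul_left_cancel₀ hb' h1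
      have h3 : ((legendreSym p (b ^ 2 - 4 * c ^ 2) : ℤ) : ZMod p) =
          ((b : ZMod p) ^ 2 - 4 * (c : ZMod p) ^ 2) ^ ((p - 1) / 2) := by
        rw [legendreSym.eq_pow]
        have hodd : p % 2 = 1 := hp.eq_two_or_odd.resolve_left hp2
        rw [show p / 2 = (p - 1) / 2 by omega]
        push_cast
        ring
      have h4 : (w : ZMod p) ^ (2 * (p - 1)) = 1 := by
        rw [mul_comm, pow_mul, ZMod.pow_card_sub_one_eq_one hw', one_pow]
      push_cast
      rw [h3, h4, ← h2]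
      ring
    obtain ⟨k, hk⟩ := key
    refine ⟨2 * c * g ^ 2 + (b + 2 * c) * k, w ^ (2 * (p - 1)), ?_, ?_⟩
    · intro hd
      exact hw (hpi.dvd_of_dvd_pow hd)
    · have hwq : (w : ℚ) ≠ 0 := by exact_mod_cast hw0
      have hwq' : ((b : ℚ) - 2 * c) = (w : ℚ) := by rw [hwdef]; push_cast; ring
      rw [hwq']
      have hsum : ∑ j ∈ range p, (8 * (c : ℚ) * j + 4 * c + b) * ((T j b (c ^ 2) : ℤ) : ℚ) ^ 2 /
          (w : ℚ) ^ (2 * j) = ((S p b c : ℤ) : ℚ) / (w : ℚ) ^ (2 * (p - 1)) := by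
        rw [eq_div_iff (pow_ne_zero _ hwq), sum_mul]
        unfold S
        push_cast
        refine sum_congr rfl fun j hj => ?_
        have hj' : j < p := mem_range.1 hj
        rw [hwq', show 2 * (p - 1) = 2 * (p - 1 - j) + 2 * j by omega, pow_add]
        field_simp
      rw [hsum, hS]
      have hkq : (h : ℚ) = (legendreSym p (b ^ 2 - 4 * c ^ 2) : ℤ) * (w : ℚ) ^ (2 * (p - 1)) + p * k := by
        have : (h : ℤ) = legendreSym p (b ^ 2 - 4 * c ^ 2) * w ^ (2 * (p - 1)) + p * k := by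
          linarith
        exact_mod_cast this
      push_cast
      rw [hkq]
      field_simp
      ring

end Pool.Agent.Results.MP_bba144_nt.SquaredTrinomialSums
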